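import Pool.Agent.W_MP_6ffb05_co.Lower

set_option autoImplicit false

namespace Pool.Agent.Results.MP_6ffb05_co.CompleteGraphNotMaximal

open Pool.Agent.W_MP_6ffb05_co

/-- Some graph on five vertices has more weak isomorphism classes of simple drawings than the
complete graph on five vertices. -/
theorem result : ∃ G : SimpleGraph (Fin 5), Tw (⊤ : SimpleGraph (Fin 5)) < Tw G :=
  ⟨fan, main⟩

end Pool.Agent.Results.MP_6ffb05_co.CompleteGraphNotMaximal
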